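import Pool.Agent.Lib.MP_45f3cb_gt.Fa.Main

/-!
Tensor tomography of all ranks under an index condition on the geodesics tangent to a foliation.
-/

open Set

namespace Pool.Agent.Results.MP_45f3cb_gt.IndexFoliation

open Pool.Agent.Lib.MP_45f3cb_gt Pool.Agent.Lib.MP_45f3cb_gt.Fa

/-- Let `{b ≤ 0}` be a simple domain of dimension at least three and `φ` a smooth function whose
only possible critical point in the domain is a strict global minimum. If every unit speed geodesic
segment through a point `γ 0` that is tangent to the level set of `φ` at `γ 0` and stays in the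
domain and in the sublevel set `{φ ≤ φ (γ 0)}` satisfies the index condition, then the geodesic ray
transform of symmetric `(d + 1)`-tensor fields is s-injective for every `d`. -/
theorem result {n : ℕ} (hn : 3 ≤ n) (g : V n → Matrix (Fin n) (Fin n) ℝ) (b : V n → ℝ)
    (h : SimpleDomain g b) (φ : V n → ℝ) (hφ : ContDiff ℝ (⊤ : ℕ∞) φ)
    (hcrit : ∀ x, b x ≤ 0 → fderiv ℝ φ x ≠ 0 ∨ ∀ y, b y ≤ 0 → y ≠ x → φ x < φ y)
    (hI : ∀ (γ γ' : ℝ → V n) (a c : ℝ), a ≤ 0 → 0 ≤ c → IsGeod g γ γ' (Icc a c) →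
      (∀ t ∈ Icc a c, b (γ t) ≤ 0 ∧ φ (γ t) ≤ φ (γ 0) ∧ gi g (γ t) (γ' t) (γ' t) = 1) →
      fderiv ℝ φ (γ 0) (γ' 0) = 0 → IdxPos g γ γ' a c) (d : ℕ) : SInj g b d :=
  sinj hn h hφ hcrit hI d

end Pool.Agent.Results.MP_45f3cb_gt.IndexFoliation
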