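import Pool.Agent.Lib.MP_45f3cb_gt.Main

/-!
Tensor tomography on simple manifolds that carry a nonzero Killing field.
-/

namespace Pool.Agent.Results.MP_45f3cb_gt.Killing

open Pool.Agent.Lib.MP_45f3cb_gt

/-- On a simple domain `{b ≤ 0}` with metric `g` that has a Killing field `ξ`, not identically zero
on the domain, the geodesic ray transform of symmetric `(d + 1)`-tensor fields is s-injective. -/
theorem result {n : ℕ} (g : V n → Matrix (Fin n) (Fin n) ℝ) (b : V n → ℝ) (h : SimpleDomain g b)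
    (ξ : V n → V n) (hξ : ContDiff ℝ (⊤ : ℕ∞) ξ)
    (hk : ∀ x, b x ≤ 0 → ∀ i j, lieG g ξ x i j = 0) (h0 : ∃ x, b x ≤ 0 ∧ ξ x ≠ 0) (d : ℕ) :
    SInj g b d :=
  killing_sinj h hξ hk h0 d

end Pool.Agent.Results.MP_45f3cb_gt.Killing
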